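import Pool.Agent.Lib_helper59.HT.Defs2
import Pool.Agent.Lib_helper59.HT.A_norm_identity

/-! Block EXROW. -/

set_option autoImplicit false

open Finset Matrix

namespace Pool.Agent.HT

lemma exrow_chi_anti {n : ℕ} (a b : Fin n) (e : Fin n × Fin n) : chi a b e = - chi b a e := by
  unfold chi
  ring

lemma exrow_tl_anti {n : ℕ} {A : Type*} [AddCommGroup A] (f : E' n → A) (a b : Fin n) :
    tl f a b = - tl f b a := by
  unfold tl
  rw [← Finset.sum_neg_distrib]
  refine Finset.sum_congr rfl fun e _ => ?_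
  rw [exrow_chi_anti a b, neg_smul]

lemma exrow_cob_tl {n : ℕ} {A : Type*} [AddCommGroup A] (f : E' n → A) (t : Tri n) :
    cob (tl f) t = ∑ e : E' n, bd t e.1 • f e := by
  unfold cob tl bd
  rw [← Finset.sum_add_distrib, ← Finset.sum_add_distrib]
  refine Finset.sum_congr rfl fun e _ => ?_
  rw [add_smul, add_smul]

/-- the determinant as a function of the row `i` -/
lemma exrow_det {n : ℕ} (τ : E' n → Tri n) (i : E' n) : ∃ a : E' n → ℝ, ∀ t : Tri n,
    ((M (Function.update τ i t)).det : ℝ) = cob (tl a) t := by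
  refine ⟨fun e => (((M τ).adjugate e i : ℤ) : ℝ), fun t => ?_⟩
  have h1 : M (Function.update τ i t) = (M τ).updateRow i (fun e => bd t e.1) := by
    ext j e
    by_cases hj : j = i
    · subst hj
      rw [Matrix.updateRow_self]
      simp [M]
    · rw [Matrix.updateRow_ne hj]
      simp [M, hj]
  rw [h1, Matrix.det_eq_sum_mul_adjugate_row _ i, exrow_cob_tl]
  push_cast
  refine Finset.sum_congr rfl fun e _ => ?_
  rw [Matrix.updateRow_self, Matrix.adjugate_apply, Matrix.adjugate_apply,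
    Matrix.updateRow_idem, zsmul_eq_mul]

/-- the three sides -/
lemma exrow_side {n : ℕ} (G : Fin n → Fin n → ℝ) (ZS : Tri n → Prop)
    (B : Finset (Fin n × Fin n)) (η : ℝ) (hη : 0 ≤ η)
    (hB : ∀ a b, (a, b) ∉ B → (cnt (fun c : Fin n => ZS (a, b, c)) : ℝ) ≤ η * n) :
    (∑ a, ∑ b, ∑ c, open Classical in if ZS (a, b, c) ∧ (a, b) ∉ B then G a b ^ 2 else 0) ≤
      η * n * ∑ a, ∑ b, G a b ^ 2 := by
  classical
  rw [Finset.mul_sum]
  refine Finset.sum_le_sum fun a _ => ?_
  rw [Finset.mul_sum]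
  refine Finset.sum_le_sum fun b _ => ?_
  by_cases h : (a, b) ∈ B
  · simp only [h, not_true_eq_false, and_false, if_false, Finset.sum_const_zero]
    positivity
  · simp only [h, not_false_eq_true, and_true]
    rw [← Finset.sum_filter, Finset.sum_const, nsmul_eq_mul]
    have h1 := hB a b h
    unfold cnt at h1
    refine mul_le_mul_of_nonneg_right ?_ (sq_nonneg _)
    convert h1

/-- block EXROW (with the additional hypothesis `0 ≤ η`) -/
theorem exrow_pr (n : ℕ) (hn : 1 ≤ n) (τ : E' n → Tri n) (i : E' n) (ZS : Tri n → Prop)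
    (hcyc : ∀ a b c, ZS (a, b, c) → ZS (b, c, a)) (B : Finset (Fin n × Fin n)) (η : ℝ)
    (hB : ∀ a b, (a, b) ∉ B → (cnt (fun c : Fin n => ZS (a, b, c)) : ℝ) ≤ η * n)
    (hη : 0 ≤ η) :
    (∑ t : Tri n, open Classical in if ZS t ∧ ¬ touch t B then wt (Function.update τ i t) else 0)
      ≤ 3 * η * ∑ t : Tri n, wt (Function.update τ i t) := by
  classical
  obtain ⟨a, ha⟩ := exrow_det τ i
  have hn0 : (0 : ℝ) < n := by exact_mod_cast hn
  set h : Fin n → ℝ := fun x => (1 / (n : ℝ)) * ∑ y, tl a x y with hh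
  set G : Fin n → Fin n → ℝ := fun x y => tl a x y - h x + h y with hG
  have hanti : ∀ x y, G x y = - G y x := by
    intro x y
    simp only [hG]
    rw [exrow_tl_anti a x y]
    ring
  have hsumh : ∑ y, h y = 0 := by
    have h1 : ∑ y, ∑ x, tl a y x = 0 := by
      have h2 : ∑ y, ∑ x, tl a y x = - ∑ y, ∑ x, tl a y x := by
        conv_lhs => rw [Finset.sum_comm]
        rw [← Finset.sum_neg_distrib]
        refine Finset.sum_congr rfl fun y _ => ?_
        rw [← Finset.sum_neg_distrib]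
        refine Finset.sum_congr rfl fun x _ => ?_
        exact exrow_tl_anti a x y
      linarith
    simp only [hh]
    rw [← Finset.mul_sum, h1, mul_zero]
  have hrow : ∀ x, ∑ y, G x y = 0 := by
    intro x
    simp only [hG]
    rw [Finset.sum_add_distrib, Finset.sum_sub_distrib, hsumh, Finset.sum_const, Finset.card_univ,
      Fintype.card_fin, nsmul_eq_mul]
    simp only [hh]
    field_simp
    ring
  have hcob : ∀ t : Tri n, cob (tl a) t = cob G t := by
    intro t
    simp only [cob, hG]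
    ring
  have hwt : ∀ t : Tri n, wt (Function.update τ i t) = cob G t ^ 2 := by
    intro t
    unfold wt
    rw [ha t, hcob t]
  have hnorm : ∑ t : Tri n, wt (Function.update τ i t) = 3 * n * ∑ x, ∑ y, G x y ^ 2 := by
    have h1 := norm_identity G hanti
    simp only [hrow] at h1
    rw [Finset.sum_congr rfl fun t _ => hwt t, h1]
    simp
  set S : ℝ := ∑ x, ∑ y, G x y ^ 2 with hS
  -- the three sums
  have hside := exrow_side G ZS B η hη hB
  have hcyc2 : ∀ x y z, ZS (x, y, z) → ZS (z, x, y) := fun x y z hz => hcyc _ _ _ (hcyc _ _ _ hz)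
  have key : (∑ t : Tri n, if ZS t ∧ ¬ touch t B then wt (Function.update τ i t) else 0) ≤
      3 * (∑ x, ∑ y, ∑ z, if ZS (x, y, z) ∧ (x, y) ∉ B then G x y ^ 2 else 0) +
      3 * (∑ x, ∑ y, ∑ z, if ZS (x, y, z) ∧ (x, y) ∉ B then G x y ^ 2 else 0) +
      3 * (∑ x, ∑ y, ∑ z, if ZS (x, y, z) ∧ (x, y) ∉ B then G x y ^ 2 else 0) := by
    have e2 : (∑ x, ∑ y, ∑ z, if ZS (x, y, z) ∧ (x, y) ∉ B then G x y ^ 2 else 0) =
        ∑ x, ∑ y, ∑ z, if ZS (y, z, x) ∧ (y, z) ∉ B then G y z ^ 2 else 0 := by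
      conv_rhs =>
        rw [Finset.sum_comm]
        enter [2, y]
        rw [Finset.sum_comm]
    have e3 : (∑ x, ∑ y, ∑ z, if ZS (x, y, z) ∧ (x, y) ∉ B then G x y ^ 2 else 0) =
        ∑ x, ∑ y, ∑ z, if ZS (z, x, y) ∧ (z, x) ∉ B then G z x ^ 2 else 0 := by
      rw [e2]
      conv_rhs =>
        rw [Finset.sum_comm]
        enter [2, y]
        rw [Finset.sum_comm]
    have hpt : ∀ t : Tri n, (if ZS t ∧ ¬ touch t B then wt (Function.update τ i t) else 0) ≤
        3 * (if ZS (t.1, t.2.1, t.2.2) ∧ (t.1, t.2.1) ∉ B then G t.1 t.2.1 ^ 2 else 0) +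
        3 * (if ZS (t.2.1, t.2.2, t.1) ∧ (t.2.1, t.2.2) ∉ B then G t.2.1 t.2.2 ^ 2 else 0) +
        3 * (if ZS (t.2.2, t.1, t.2.1) ∧ (t.2.2, t.1) ∉ B then G t.2.2 t.1 ^ 2 else 0) := by
      rintro ⟨x, y, z⟩
      by_cases ht : ZS (x, y, z) ∧ ¬ touch (x, y, z) B
      · obtain ⟨h1, h2⟩ := ht
        have h3 : ((x, y) : Fin n × Fin n) ∉ B ∧ ((y, z) : Fin n × Fin n) ∉ B ∧
            ((z, x) : Fin n × Fin n) ∉ B := by
          unfold touch at h2
          simp only [not_or] at h2
          exact h2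
        rw [if_pos ⟨h1, h2⟩]
        simp only
        rw [if_pos ⟨h1, h3.1⟩, if_pos ⟨hcyc _ _ _ h1, h3.2.1⟩, if_pos ⟨hcyc2 _ _ _ h1, h3.2.2⟩,
          hwt]
        simp only [cob]
        nlinarith [sq_nonneg (G x y - G y z), sq_nonneg (G y z - G z x), sq_nonneg (G z x - G x y)]
      · rw [if_neg ht]
        positivity
    refine (Finset.sum_le_sum fun t _ => hpt t).trans (le_of_eq ?_)
    rw [Finset.sum_add_distrib, Finset.sum_add_distrib, ← Finset.mul_sum, ← Finset.mul_sum,
      ← Finset.mul_sum]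
    congr 1
    · congr 1
      · congr 1
        rw [Fintype.sum_prod_type]
        refine Finset.sum_congr rfl fun x _ => ?_
        rw [Fintype.sum_prod_type]
      · congr 1
        rw [e2, Fintype.sum_prod_type]
        refine Finset.sum_congr rfl fun x _ => ?_
        rw [Fintype.sum_prod_type]
    · congr 1
      rw [e3, Fintype.sum_prod_type]
      refine Finset.sum_congr rfl fun x _ => ?_
      rw [Fintype.sum_prod_type]
  rw [hnorm]
  refine key.trans ?_
  have hside' : (∑ x, ∑ y, ∑ z, if ZS (x, y, z) ∧ (x, y) ∉ B then G x y ^ 2 else 0) ≤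
      η * n * S := by
    convert hside
  nlinarith

end Pool.Agent.HT
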