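import Pool.Agent.Lib_helper59.HT.Defs2
import Pool.Agent.Lib_helper6.HT.EXROW

/-! Block EXCH. -/

set_option autoImplicit false

open Finset Matrix

namespace Pool.Agent.HT

/-- existence of subgroups of prescribed order in a `p`-group -/
lemma exch_sub {n p k s : ℕ} (hp : p.Prime) (K : AddSubgroup (E' n → ZMod (p ^ k)))
    (h : p ^ s ≤ Nat.card K) : ∃ V : AddSubgroup (E' n → ZMod (p ^ k)), V ≤ K ∧
      Nat.card V = p ^ s := by
  have : NeZero (p ^ k) := ⟨(Nat.pow_pos hp.pos).ne'⟩
  have hpg : IsPGroup p (Multiplicative (E' n → ZMod (p ^ k))) := by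
    refine IsPGroup.of_card (n := k * Fintype.card (E' n)) ?_
    rw [Nat.card_congr Multiplicative.toAdd, Nat.card_eq_fintype_card, Fintype.card_fun,
      ZMod.card, pow_mul]
  obtain ⟨H, hH, hc⟩ := Sylow.exists_subgroup_le_card_pow_prime_of_le_card hp hpg
    (H := AddSubgroup.toSubgroup K) (n := s) (by
      refine h.trans (le_of_eq ?_)
      exact Nat.card_congr (Equiv.refl _))
  refine ⟨Subgroup.toAddSubgroup' H, ?_, ?_⟩
  · intro f hf
    exact hH hf
  · rw [← hc]
    exact Nat.card_congr (Equiv.refl _)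

/-- cochains killed by all rows except `i` -/
def exch_K {n q : ℕ} (τ : E' n → Tri n) (i : E' n) : AddSubgroup (E' n → ZMod q) where
  carrier := {f | ∀ j, j ≠ i → cob (tl f) (τ j) = 0}
  zero_mem' := by
    intro j _
    simp [cob, tl]
  add_mem' := by
    intro a b ha hb j hj
    rw [cob_tl_add, ha j hj, hb j hj, add_zero]
  neg_mem' := by
    intro a ha j hj
    rw [cob_tl_neg, ha j hj, neg_zero]

lemma exch_K_update {n q : ℕ} (τ : E' n → Tri n) (i : E' n) (t : Tri n) :
    exch_K (q := q) (Function.update τ i t) i = exch_K τ i := by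
  ext f
  constructor
  · intro h j hj
    have := h j hj
    rwa [Function.update_of_ne hj] at this
  · intro h j hj
    have := h j hj
    rwa [Function.update_of_ne hj]

/-- a cycle mod `q` with a unit entry at `i` : the row `i` is redundant -/
lemma exch_K_eq {n p k : ℕ} (hp : p.Prime) (τ : E' n → Tri n) (c : E' n → ℤ)
    (hc : ∀ e, ((p ^ k : ℕ) : ℤ) ∣ ∑ i, c i * M τ i e) (i : E' n) (hi : ¬ (p : ℤ) ∣ c i) :
    exch_K (q := p ^ k) τ i = Kq (ZMod (p ^ k)) τ := by
  ext f
  constructor
  · intro h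
    have h1 : ∑ j, c j • cob (tl f) (τ j) = 0 := by
      have h2 : ∑ j, c j • cob (tl f) (τ j) = ∑ e : E' n, (∑ j, c j * M τ j e) • f e := by
        simp only [exrow_cob_tl, Finset.smul_sum, Finset.sum_smul]
        rw [Finset.sum_comm]
        refine Finset.sum_congr rfl fun e _ => Finset.sum_congr rfl fun j _ => ?_
        rw [← mul_smul]
        rfl
      rw [h2]
      refine Finset.sum_eq_zero fun e _ => ?_
      rw [zsmul_eq_mul, (ZMod.intCast_zmod_eq_zero_iff_dvd _ (p ^ k)).mpr (hc e), zero_mul]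
    have h3 : c i • cob (tl f) (τ i) = 0 := by
      rw [Finset.sum_eq_single i] at h1
      · exact h1
      · intro j _ hj
        rw [h j hj, smul_zero]
      · intro h4
        exact absurd (Finset.mem_univ i) h4
    have hu : IsUnit ((c i : ℤ) : ZMod (p ^ k)) := by
      rw [ZMod.coe_int_isUnit_iff_isCoprime]
      push_cast
      exact IsCoprime.pow_left
        (((Nat.prime_iff_prime_int.mp hp).coprime_iff_not_dvd).mpr hi)
    intro j
    by_cases hj : j = i
    · subst hj
      rw [zsmul_eq_mul] at h3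
      exact (hu.mul_right_eq_zero).mp h3
    · exact h j hj
  · intro h j _
    exact h j


/-- averaging over the value at `i` -/
lemma exch_avg {ι T : Type} [Fintype ι] [DecidableEq ι] [Fintype T] (F : (ι → T) → ℝ) (i : ι) :
    ∑ τ : ι → T, ∑ t : T, F (Function.update τ i t) = Fintype.card T * ∑ τ : ι → T, F τ := by
  classical
  rw [← Finset.sum_product' (s := Finset.univ) (t := Finset.univ)
    (f := fun (τ : ι → T) (t : T) => F (Function.update τ i t))]
  have h1 : ∑ x ∈ (Finset.univ : Finset (ι → T)) ×ˢ (Finset.univ : Finset T),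
      F (Function.update x.1 i x.2) =
      ∑ x ∈ (Finset.univ : Finset (ι → T)) ×ˢ (Finset.univ : Finset T), F x.1 := by
    refine Finset.sum_nbij' (fun x => (Function.update x.1 i x.2, x.1 i))
      (fun x => (Function.update x.1 i x.2, x.1 i)) ?_ ?_ ?_ ?_ ?_
    · intro x _; simp
    · intro x _; simp
    · rintro ⟨τ, t⟩ _
      simp
    · rintro ⟨τ, t⟩ _
      simp
    · rintro ⟨τ, t⟩ _
      rfl
  rw [h1, Finset.sum_product]
  simp [Finset.sum_const, Finset.mul_sum]

open Classical in
/-- the choice of the subgroup -/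
noncomputable def exch_V {n p k : ℕ} (s : ℕ) (K : AddSubgroup (E' n → ZMod (p ^ k))) :
    AddSubgroup (E' n → ZMod (p ^ k)) :=
  if h : ∃ V : AddSubgroup (E' n → ZMod (p ^ k)), V ≤ K ∧ Nat.card V = p ^ s then h.choose else ⊥

lemma exch_V_spec {n p k s : ℕ} (hp : p.Prime) (K : AddSubgroup (E' n → ZMod (p ^ k)))
    (h : p ^ s ≤ Nat.card K) : exch_V s K ≤ K ∧ Nat.card (exch_V s K) = p ^ s := by
  have h1 := exch_sub hp K h
  unfold exch_V
  rw [dif_pos h1]
  exact h1.choose_spec

/-- the event for the row `i` -/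
def exch_P {n p k : ℕ} (s : ℕ) (η : ℝ) (τ : E' n → Tri n) (i : E' n) : Prop :=
  p ^ s ≤ Nat.card (exch_K (q := p ^ k) τ i) ∧
    ZZ (exch_V s (exch_K (q := p ^ k) τ i)) (τ i) ∧
      ¬ touch (τ i) (BB (exch_V s (exch_K (q := p ^ k) τ i)) η)

lemma exch_wt_nonneg {n : ℕ} (τ : E' n → Tri n) : 0 ≤ wt τ := sq_nonneg _

open Classical in
/-- the bound for one row -/
lemma exch_row {n p k s : ℕ} (hn : 3 ≤ n) (η : ℝ) (hη : 0 ≤ η) (i : E' n) :
    ∑ τ : E' n → Tri n, (if exch_P (p := p) (k := k) s η τ i then wt τ else 0) ≤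
      3 * η * Z n := by
  have hT : (0 : ℝ) < Fintype.card (Tri n) := by
    have : Nonempty (Tri n) := ⟨(⟨0, by omega⟩, ⟨0, by omega⟩, ⟨0, by omega⟩)⟩
    exact_mod_cast Fintype.card_pos
  have h1 := exch_avg (fun τ : E' n → Tri n => if exch_P (p := p) (k := k) s η τ i then wt τ else 0) i
  have h2 := exch_avg (fun τ : E' n → Tri n => wt τ) i
  have h3 : ∑ τ : E' n → Tri n, ∑ t : Tri n,
      (if exch_P (p := p) (k := k) s η (Function.update τ i t) i then
        wt (Function.update τ i t) else 0) ≤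
      3 * η * ∑ τ : E' n → Tri n, ∑ t : Tri n, wt (Function.update τ i t) := by
    rw [Finset.mul_sum]
    refine Finset.sum_le_sum fun τ _ => ?_
    have hEq : ∀ t : Tri n, exch_P (p := p) (k := k) s η (Function.update τ i t) i ↔
        p ^ s ≤ Nat.card (exch_K (q := p ^ k) τ i) ∧
          ZZ (exch_V s (exch_K (q := p ^ k) τ i)) t ∧
            ¬ touch t (BB (exch_V s (exch_K (q := p ^ k) τ i)) η) := by
      intro t
      unfold exch_P
      rw [exch_K_update, Function.update_self]
    set V := exch_V s (exch_K (q := p ^ k) τ i) with hV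
    have hrow := exrow_pr n (by omega) τ i (ZZ V)
      (by
        intro a b c h f hf
        have := h f hf
        unfold cob at this ⊢
        simp only at this ⊢
        rw [← this]
        abel)
      (BB V η) η
      (by
        intro a b hab
        unfold BB at hab
        simp only [Finset.mem_filter, Finset.mem_univ, true_and, not_lt] at hab
        exact hab) hη
    refine le_trans (Finset.sum_le_sum fun t _ => ?_) hrow
    by_cases hc : p ^ s ≤ Nat.card (exch_K (q := p ^ k) τ i)
    · by_cases hz : ZZ V t ∧ ¬ touch t (BB V η)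
      · rw [if_pos ((hEq t).mpr ⟨hc, hz⟩), if_pos hz]
      · rw [if_neg (fun h => hz ((hEq t).mp h).2), if_neg hz]
    · rw [if_neg (fun h => hc ((hEq t).mp h).1)]
      split_ifs
      · exact exch_wt_nonneg _
      · exact le_rfl
  rw [h1, h2] at h3
  have h4 : (Fintype.card (Tri n) : ℝ) *
      ∑ τ : E' n → Tri n, (if exch_P (p := p) (k := k) s η τ i then wt τ else 0) ≤
      (Fintype.card (Tri n) : ℝ) * (3 * η * Z n) := by
    refine h3.trans (le_of_eq ?_)
    unfold Z
    ring
  exact le_of_mul_le_mul_left h4 hT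

/-- block EXCH -/
theorem exch_main_pr (n : ℕ) (hn : 3 ≤ n) (p k s : ℕ) (hp : p.Prime) (hk : 1 ≤ k)
    (δ ε' η : ℝ) (hη : 0 ≤ η) (Bad : (E' n → Tri n) → Prop)
    (h1 : ∀ τ, ¬ Bad τ → ∀ c : E' n → ℤ, (∃ i, ¬ (p : ℤ) ∣ c i) →
      (∀ e, (p : ℤ) ∣ ∑ i, c i * M τ i e) → δ * Nr n ≤ cnt (fun i => ¬ (p : ℤ) ∣ c i))
    (h2 : ∀ τ, ¬ Bad τ → ∀ V : AddSubgroup (E' n → ZMod (p ^ k)), V ≤ Kq (ZMod (p ^ k)) τ →
      Nat.card V = p ^ s → (cnt (fun i => touch (τ i) (BB V η)) : ℝ) ≤ ε' * Nr n) :
    (δ - ε') * mass (fun τ : E' n → Tri n => AA p (p ^ k) (p ^ s) τ ∧ ¬ Bad τ) ≤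
      3 * η * Z n := by
  classical
  have hNr : (0 : ℝ) < Nr n := by
    have : Nonempty (E' n) := ⟨⟨(⟨1, by omega⟩, ⟨2, by omega⟩), by
      constructor
      · simp
      · simp [Fin.lt_def]⟩⟩
    unfold Nr
    exact_mod_cast Fintype.card_pos
  -- main count
  have hcount : ∀ τ : E' n → Tri n, AA p (p ^ k) (p ^ s) τ → ¬ Bad τ →
      (δ - ε') * Nr n ≤ cnt (fun i => exch_P (p := p) (k := k) s η τ i) := by
    rintro τ ⟨⟨c, hci, hc⟩, hm⟩ hB
    have hcp : ∀ e, (p : ℤ) ∣ ∑ i, c i * M τ i e := by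
      intro e
      refine dvd_trans ?_ (hc e)
      push_cast
      exact dvd_pow_self _ (by omega)
    have h3 := h1 τ hB c hci hcp
    obtain ⟨hV1, hV2⟩ := exch_V_spec (s := s) hp (Kq (ZMod (p ^ k)) τ) hm
    have h4 := h2 τ hB _ hV1 hV2
    set V := exch_V s (Kq (ZMod (p ^ k)) τ) with hV
    have h5 : cnt (fun i => ¬ (p : ℤ) ∣ c i) ≤
        cnt (fun i => exch_P (p := p) (k := k) s η τ i) + cnt (fun i => touch (τ i) (BB V η)) := by
      unfold cnt
      refine le_trans (Finset.card_le_card ?_) (Finset.card_union_le _ _)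
      intro i hi
      simp only [Finset.mem_filter] at hi
      simp only [Finset.mem_union, Finset.mem_filter]
      by_cases ht : touch (τ i) (BB V η)
      · exact Or.inr ⟨Finset.mem_univ _, ht⟩
      · left
        refine ⟨Finset.mem_univ _, ?_⟩
        unfold exch_P
        rw [exch_K_eq hp τ c hc i hi.2]
        refine ⟨hm, ?_, ht⟩
        intro f hf
        exact (hV1 hf) i
    have h6 : (cnt (fun i => ¬ (p : ℤ) ∣ c i) : ℝ) ≤
        cnt (fun i => exch_P (p := p) (k := k) s η τ i) + cnt (fun i => touch (τ i) (BB V η)) := by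
      exact_mod_cast h5
    rw [sub_mul]
    linarith
  have hmain : Nr n * ((δ - ε') *
      mass (fun τ : E' n → Tri n => AA p (p ^ k) (p ^ s) τ ∧ ¬ Bad τ)) ≤
      Nr n * (3 * η * Z n) := by
    calc Nr n * ((δ - ε') * mass (fun τ : E' n → Tri n => AA p (p ^ k) (p ^ s) τ ∧ ¬ Bad τ))
        = ∑ τ : E' n → Tri n, (if AA p (p ^ k) (p ^ s) τ ∧ ¬ Bad τ then
            ((δ - ε') * Nr n) * wt τ else 0) := by
          unfold mass
          rw [← mul_assoc, Finset.mul_sum]
          refine Finset.sum_congr rfl fun τ _ => ?_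
          split_ifs
          · ring
          · ring
      _ ≤ ∑ τ : E' n → Tri n, ∑ i : E' n,
            (if exch_P (p := p) (k := k) s η τ i then wt τ else 0) := by
          refine Finset.sum_le_sum fun τ _ => ?_
          have h7 : ∑ i : E' n, (if exch_P (p := p) (k := k) s η τ i then wt τ else 0) =
              (cnt (fun i => exch_P (p := p) (k := k) s η τ i) : ℝ) * wt τ := by
            rw [← Finset.sum_filter, Finset.sum_const, nsmul_eq_mul]
            unfold cnt
            congr
          rw [h7]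
          split_ifs with h
          · exact mul_le_mul_of_nonneg_right (hcount τ h.1 h.2) (exch_wt_nonneg τ)
          · exact mul_nonneg (Nat.cast_nonneg _) (exch_wt_nonneg τ)
      _ = ∑ i : E' n, ∑ τ : E' n → Tri n,
            (if exch_P (p := p) (k := k) s η τ i then wt τ else 0) := Finset.sum_comm
      _ ≤ ∑ i : E' n, 3 * η * Z n := Finset.sum_le_sum fun i _ => exch_row hn η hη i
      _ = Nr n * (3 * η * Z n) := by
          rw [Finset.sum_const, nsmul_eq_mul]
          rfl
  exact le_of_mul_le_mul_left hmain hNr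

end Pool.Agent.HT
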