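import Pool.Agent.Lib_helper59.HT.Defs2
import Pool.Agent.Lib_helper6.HT.EXCH

/-! Block BRIDGE. -/

set_option autoImplicit false

open Finset Matrix

namespace Pool.Agent.HT

/-! ### the number of rows -/

lemma bridge_range (n : ℕ) : ∑ j ∈ Finset.range n, (j - 1) = (n - 1).choose 2 := by
  induction n with
  | zero => simp
  | succ m ih =>
    rw [Finset.sum_range_succ, ih]
    rcases m with _ | m
    · simp
    · simp only [Nat.add_sub_cancel]
      rw [Nat.choose_succ_succ' m 1, Nat.choose_one_right]
      ring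

lemma bridge_card (n : ℕ) : Fintype.card (E' n) = (n - 1).choose 2 := by
  classical
  rw [Fintype.card_subtype, ← bridge_range, Finset.card_filter, Fintype.sum_prod_type,
    Finset.sum_comm, Finset.sum_range]
  refine Finset.sum_congr rfl fun j _ => ?_
  rw [← Finset.card_filter]
  have h1 : (Finset.univ.filter (fun i : Fin n => 0 < i.val ∧ i < j)).card =
      (Finset.Ioo 0 j.val).card := by
    refine Finset.card_bij (fun i _ => i.val) ?_ ?_ ?_
    · intro i hi
      simp only [Finset.mem_filter, Finset.mem_univ, true_and] at hi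
      rw [Finset.mem_Ioo]
      exact ⟨hi.1, hi.2⟩
    · intro i _ i' _ h
      exact Fin.ext h
    · intro x hx
      rw [Finset.mem_Ioo] at hx
      refine ⟨⟨x, by have := j.isLt; omega⟩, ?_, rfl⟩
      simp only [Finset.mem_filter, Finset.mem_univ, true_and]
      exact ⟨hx.1, hx.2⟩
  rw [h1, Nat.card_Ioo]
  omega

/-! ### symmetric functions of triples -/

/-- sorted triples -/
def bridge_S {n : ℕ} (t : Tri n) : Prop := t.1 < t.2.1 ∧ t.2.1 < t.2.2

instance {n : ℕ} (t : Tri n) : Decidable (bridge_S t) := by unfold bridge_S; infer_instance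

lemma bridge_six {n : ℕ} (g : Tri n → ℝ) (h1 : ∀ a b c, g (a, b, c) = g (b, a, c))
    (h2 : ∀ a b c, g (a, b, c) = g (b, c, a)) (h3 : ∀ a c, g (a, a, c) = 0) :
    ∑ t : Tri n, g t = 6 * ∑ t : Tri n, if bridge_S t then g t else 0 := by
  classical
  have e1 : ∑ t : Tri n, g t = ∑ a, ∑ b, ∑ c, g (a, b, c) := by
    rw [Fintype.sum_prod_type]
    refine Finset.sum_congr rfl fun a _ => ?_
    rw [Fintype.sum_prod_type]
  have e2 : ∑ t : Tri n, (if bridge_S t then g t else 0) =
      ∑ a, ∑ b, ∑ c, if a < b ∧ b < c then g (a, b, c) else 0 := by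
    rw [Fintype.sum_prod_type]
    refine Finset.sum_congr rfl fun a _ => ?_
    rw [Fintype.sum_prod_type]
    rfl
  set S : ℝ := ∑ a, ∑ b, ∑ c, (if a < b ∧ b < c then g (a, b, c) else 0) with hS
  have hpt : ∀ a b c : Fin n, g (a, b, c) =
      (if a < b ∧ b < c then g (a, b, c) else 0) + (if a < c ∧ c < b then g (a, c, b) else 0) +
      (if b < a ∧ a < c then g (b, a, c) else 0) + (if b < c ∧ c < a then g (b, c, a) else 0) +
      (if c < a ∧ a < b then g (c, a, b) else 0) + (if c < b ∧ b < a then g (c, b, a) else 0) := by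
    intro a b c
    have p1 : g (a, c, b) = g (a, b, c) := by rw [h1 a c b, h2 c a b]
    have p2 : g (b, a, c) = g (a, b, c) := (h1 a b c).symm
    have p3 : g (b, c, a) = g (a, b, c) := (h2 a b c).symm
    have p4 : g (c, a, b) = g (a, b, c) := by rw [h2 c a b]
    have p5 : g (c, b, a) = g (a, b, c) := by rw [h1 c b a, p3]
    rw [p1, p2, p3, p4, p5]
    rcases lt_trichotomy a b with hab | hab | hab
    · rcases lt_trichotomy b c with hbc | hbc | hbc
      · have hac := hab.trans hbc
        simp [hab, hbc, hac, hab.not_gt, hbc.not_gt, hac.not_gt]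
      · subst hbc
        have : g (a, b, b) = 0 := by rw [h2, h3]
        simp [this]
      · rcases lt_trichotomy a c with hac | hac | hac
        · simp [hab, hbc, hac, hab.not_gt, hbc.not_gt, hac.not_gt]
        · subst hac
          have : g (a, b, a) = 0 := by rw [h2, h2, h3]
          simp [this]
        · simp [hab, hbc, hac, hab.not_gt, hbc.not_gt, hac.not_gt]
    · subst hab
      simp [h3]
    · rcases lt_trichotomy b c with hbc | hbc | hbc
      · rcases lt_trichotomy a c with hac | hac | hac
        · simp [hab, hbc, hac, hab.not_gt, hbc.not_gt, hac.not_gt]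
        · subst hac
          have : g (a, b, a) = 0 := by rw [h2, h2, h3]
          simp [this]
        · simp [hab, hbc, hac, hab.not_gt, hbc.not_gt, hac.not_gt]
      · subst hbc
        have : g (a, b, b) = 0 := by rw [h2, h3]
        simp [this]
      · have hac := hbc.trans hab
        simp [hab, hbc, hac, hab.not_gt, hbc.not_gt, hac.not_gt]
  rw [e1, e2]
  have s1 : ∑ a, ∑ b, ∑ c, (if a < c ∧ c < b then g (a, c, b) else 0) = S := by
    refine Finset.sum_congr rfl fun a _ => ?_
    rw [Finset.sum_comm]
  have s2 : ∑ a, ∑ b, ∑ c, (if b < a ∧ a < c then g (b, a, c) else 0) = S := by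
    rw [Finset.sum_comm]
  have s3 : ∑ a, ∑ b, ∑ c, (if b < c ∧ c < a then g (b, c, a) else 0) = S := by
    rw [Finset.sum_comm]
    refine Finset.sum_congr rfl fun a _ => ?_
    rw [Finset.sum_comm]
  have s4 : ∑ a, ∑ b, ∑ c, (if c < a ∧ a < b then g (c, a, b) else 0) = S := by
    rw [hS]
    conv_rhs => rw [Finset.sum_comm]
    refine Finset.sum_congr rfl fun a _ => ?_
    rw [Finset.sum_comm]
  have s5 : ∑ a, ∑ b, ∑ c, (if c < b ∧ b < a then g (c, b, a) else 0) = S := by
    have : ∀ a : Fin n, ∑ b, ∑ c, (if c < b ∧ b < a then g (c, b, a) else 0) =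
        ∑ c, ∑ b, (if c < b ∧ b < a then g (c, b, a) else 0) := fun a => Finset.sum_comm
    rw [Finset.sum_congr rfl fun a _ => this a, Finset.sum_comm]
    refine Finset.sum_congr rfl fun a _ => ?_
    rw [Finset.sum_comm]
  calc ∑ a, ∑ b, ∑ c, g (a, b, c) = ∑ a, ∑ b, ∑ c,
      ((if a < b ∧ b < c then g (a, b, c) else 0) + (if a < c ∧ c < b then g (a, c, b) else 0) +
      (if b < a ∧ a < c then g (b, a, c) else 0) + (if b < c ∧ c < a then g (b, c, a) else 0) +
      (if c < a ∧ a < b then g (c, a, b) else 0) + (if c < b ∧ b < a then g (c, b, a) else 0)) :=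
        Finset.sum_congr rfl fun a _ => Finset.sum_congr rfl fun b _ =>
          Finset.sum_congr rfl fun c _ => hpt a b c
    _ = S + S + S + S + S + S := by
        simp only [Finset.sum_add_distrib]
        rw [s1, s2, s3, s4, s5]
    _ = 6 * S := by ring

/-- coordinate by coordinate -/
lemma bridge_coord {ι T : Type} [Fintype ι] [DecidableEq ι] [Fintype T] [Nonempty T]
    (S : T → Prop) [DecidablePred S] (c : ℝ) (Φ : (ι → T) → ℝ)
    (h : ∀ (τ : ι → T) (i : ι), ∑ t : T, Φ (Function.update τ i t) =
      c * ∑ t : T, if S t then Φ (Function.update τ i t) else 0) :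
    ∑ τ : ι → T, Φ τ = c ^ Fintype.card ι * ∑ τ : ι → T, if ∀ i, S (τ i) then Φ τ else 0 := by
  classical
  have key : ∀ J : Finset ι, ∑ τ : ι → T, Φ τ =
      c ^ J.card * ∑ τ : ι → T, if ∀ i ∈ J, S (τ i) then Φ τ else 0 := by
    intro J
    induction J using Finset.induction_on with
    | empty => simp
    | insert i J hi ih =>
      rw [ih, Finset.card_insert_of_notMem hi, pow_succ, mul_assoc]
      congr 1
      have hT : (0 : ℝ) < Fintype.card T := by exact_mod_cast Fintype.card_pos
      have h1 := exch_avg (fun τ : ι → T => if ∀ i ∈ J, S (τ i) then Φ τ else 0) i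
      have h2 := exch_avg (fun τ : ι → T => if ∀ j ∈ insert i J, S (τ j) then Φ τ else 0) i
      have h3 : ∑ τ : ι → T, ∑ t : T,
          (if ∀ j ∈ J, S (Function.update τ i t j) then Φ (Function.update τ i t) else 0) =
          c * ∑ τ : ι → T, ∑ t : T, (if ∀ j ∈ insert i J, S (Function.update τ i t j) then
            Φ (Function.update τ i t) else 0) := by
        rw [Finset.mul_sum]
        refine Finset.sum_congr rfl fun τ _ => ?_
        have h4 : ∀ t, (∀ j ∈ J, S (Function.update τ i t j)) ↔ ∀ j ∈ J, S (τ j) := by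
          intro t
          refine forall₂_congr fun j hj => ?_
          rw [Function.update_of_ne (by rintro rfl; exact hi hj)]
        have h5 : ∀ t, (∀ j ∈ insert i J, S (Function.update τ i t j)) ↔
            (∀ j ∈ J, S (τ j)) ∧ S t := by
          intro t
          rw [Finset.forall_mem_insert, Function.update_self, h4, and_comm]
        by_cases hJ : ∀ j ∈ J, S (τ j)
        · have e1 : ∀ t, (if ∀ j ∈ J, S (Function.update τ i t j) then
              Φ (Function.update τ i t) else 0) = Φ (Function.update τ i t) := fun t =>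
            if_pos ((h4 t).mpr hJ)
          have e2 : ∀ t, (if ∀ j ∈ insert i J, S (Function.update τ i t j) then
              Φ (Function.update τ i t) else 0) =
              if S t then Φ (Function.update τ i t) else 0 := fun t =>
            if_congr ((h5 t).trans ⟨fun h => h.2, fun h => ⟨hJ, h⟩⟩) rfl rfl
          rw [Finset.sum_congr rfl fun t _ => e1 t, Finset.sum_congr rfl fun t _ => e2 t]
          exact h τ i
        · have e1 : ∀ t, (if ∀ j ∈ J, S (Function.update τ i t j) then
              Φ (Function.update τ i t) else 0) = 0 := fun t =>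
            if_neg (fun h => hJ ((h4 t).mp h))
          have e2 : ∀ t, (if ∀ j ∈ insert i J, S (Function.update τ i t j) then
              Φ (Function.update τ i t) else 0) = 0 := fun t =>
            if_neg (fun h => hJ ((h5 t).mp h).1)
          rw [Finset.sum_congr rfl fun t _ => e1 t, Finset.sum_congr rfl fun t _ => e2 t]
          simp
      rw [h1, h2] at h3
      have h6 : (Fintype.card T : ℝ) * ∑ τ : ι → T, (if ∀ i ∈ J, S (τ i) then Φ τ else 0) =
          (Fintype.card T : ℝ) * (c * ∑ τ : ι → T,
            (if ∀ j ∈ insert i J, S (τ j) then Φ τ else 0)) := by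
        rw [h3]; ring
      exact mul_left_cancel₀ hT.ne' h6
  have := key Finset.univ
  simpa using this


/-! ### determinants -/

lemma bridge_det {n : ℕ} (τ : E' n → Tri n) (i : E' n) : ∃ a : E' n → ℤ, ∀ t : Tri n,
    (M (Function.update τ i t)).det = cob (tl a) t := by
  refine ⟨fun e => (M τ).adjugate e i, fun t => ?_⟩
  have h1 : M (Function.update τ i t) = (M τ).updateRow i (fun e => bd t e.1) := by
    ext j e
    by_cases hj : j = i
    · subst hj
      rw [Matrix.updateRow_self]
      simp [M]
    · rw [Matrix.updateRow_ne hj]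
      simp [M, hj]
  rw [h1, Matrix.det_eq_sum_mul_adjugate_row _ i, exrow_cob_tl]
  refine Finset.sum_congr rfl fun e _ => ?_
  rw [Matrix.updateRow_self, Matrix.adjugate_apply, Matrix.adjugate_apply,
    Matrix.updateRow_idem, smul_eq_mul]

/-- first reduction: sorted triples -/
lemma bridge_sorted {n : ℕ} (hn : 1 ≤ n) (Ft : ℤ → ℝ) (h0 : Ft 0 = 0) :
    ∑ τ : E' n → Tri n, Ft ((M τ).det ^ 2) =
      6 ^ Fintype.card (E' n) *
        ∑ τ : E' n → Tri n, if ∀ i, bridge_S (τ i) then Ft ((M τ).det ^ 2) else 0 := by
  have : Nonempty (Tri n) := ⟨(⟨0, by omega⟩, ⟨0, by omega⟩, ⟨0, by omega⟩)⟩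
  refine bridge_coord bridge_S 6 (fun τ : E' n → Tri n => Ft ((M τ).det ^ 2)) fun τ i => ?_
  obtain ⟨a, ha⟩ := bridge_det τ i
  refine bridge_six (fun t => Ft ((M (Function.update τ i t)).det ^ 2)) ?_ ?_ ?_
  · intro x y z
    simp only [ha]
    congr 1
    unfold cob
    simp only
    rw [exrow_tl_anti a x y, exrow_tl_anti a y z, exrow_tl_anti a z x]
    ring
  · intro x y z
    simp only [ha]
    congr 1
    unfold cob
    simp only
    ring
  · intro x z
    simp only [ha]
    have h1 : tl a x x = 0 := by
      have := exrow_tl_anti a x x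
      linarith
    have h2 : cob (tl a) (x, x, z) = 0 := by
      unfold cob
      simp only
      rw [h1, exrow_tl_anti a x z]
      ring
    rw [h2]
    simpa using h0

/-- Gram matrix of a set of triples -/
def bridge_G {n : ℕ} (T : Finset (Tri n)) : Matrix (E' n) (E' n) ℤ :=
  Matrix.of fun e f => ∑ t ∈ T, bd t e.1 * bd t f.1

lemma bridge_gram {n : ℕ} (τ : E' n → Tri n) (hτ : Function.Injective τ) :
    (M τ).det ^ 2 = (bridge_G (Finset.univ.image τ)).det := by
  classical
  have h1 : bridge_G (Finset.univ.image τ) = (M τ)ᵀ * M τ := by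
    ext e f
    unfold bridge_G
    rw [Matrix.of_apply, Finset.sum_image (fun i _ j _ h => hτ h), Matrix.mul_apply]
    rfl
  rw [h1, Matrix.det_mul, Matrix.det_transpose, sq]

lemma bridge_noninj {n : ℕ} (τ : E' n → Tri n) (hτ : ¬ Function.Injective τ) :
    (M τ).det = 0 := by
  unfold Function.Injective at hτ
  push Not at hτ
  obtain ⟨i, j, hij, hne⟩ := hτ
  refine Matrix.det_zero_of_row_eq hne ?_
  funext e
  unfold M
  rw [Matrix.of_apply, Matrix.of_apply, hij]

lemma bridge_inj {n : ℕ} (τ : E' n → Tri n)
    (h : (Finset.univ.image τ).card = Fintype.card (E' n)) : Function.Injective τ := by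
  have h1 : Set.InjOn τ ((Finset.univ : Finset (E' n)) : Set (E' n)) :=
    Finset.card_image_iff.mp (by rw [h, Finset.card_univ])
  intro i j hij
  exact h1 (by simp) (by simp) hij

/-- the number of enumerations -/
lemma bridge_enum {n : ℕ} (T : Finset (Tri n)) (hT : T.card = Fintype.card (E' n)) :
    (Finset.univ.filter (fun τ : E' n → Tri n => Finset.univ.image τ = T)).card =
      (Fintype.card (E' n)).factorial := by
  classical
  have e0 : E' n ≃ T := Fintype.equivOfCardEq (by rw [Fintype.card_coe, hT])
  rw [← Fintype.card_equiv e0, ← Finset.card_univ]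
  symm
  refine Finset.card_bij (fun e _ => fun i => (e i).1) ?_ ?_ ?_
  · intro e _
    rw [Finset.mem_filter]
    refine ⟨Finset.mem_univ _, ?_⟩
    ext t
    rw [Finset.mem_image]
    constructor
    · rintro ⟨i, _, rfl⟩
      exact (e i).2
    · intro ht
      exact ⟨e.symm ⟨t, ht⟩, Finset.mem_univ _, by simp⟩
  · intro e _ e' _ h
    exact Equiv.ext fun i => Subtype.ext (congrFun h i)
  · intro τ hτ
    rw [Finset.mem_filter] at hτ
    have hmem : ∀ i, τ i ∈ T := fun i => by
      rw [← hτ.2]; exact Finset.mem_image_of_mem _ (Finset.mem_univ i)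
    have hinj : Function.Injective τ := bridge_inj τ (by rw [hτ.2, hT])
    have hinj' : Function.Injective (fun i => (⟨τ i, hmem i⟩ : T)) := fun i j h =>
      hinj (congrArg Subtype.val h)
    have hbij : Function.Bijective (fun i => (⟨τ i, hmem i⟩ : T)) := by
      rw [Fintype.bijective_iff_injective_and_card]
      exact ⟨hinj', by rw [Fintype.card_coe, hT]⟩
    exact ⟨Equiv.ofBijective _ hbij, Finset.mem_univ _, rfl⟩

/-- the sorted triples as a finset -/
def bridge_Srt (n : ℕ) : Finset (Tri n) := Finset.univ.filter (fun t => t.1 < t.2.1 ∧ t.2.1 < t.2.2)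

lemma bridge_sum {n : ℕ} (hn : 1 ≤ n) (Ft : ℤ → ℝ) (h0 : Ft 0 = 0) :
    ∑ τ : E' n → Tri n, Ft ((M τ).det ^ 2) =
      (6 ^ Fintype.card (E' n) * (Fintype.card (E' n)).factorial) *
        ∑ T ∈ (bridge_Srt n).powerset.filter (fun T => T.card = (n - 1).choose 2),
          Ft (bridge_G T).det := by
  classical
  rw [bridge_sorted hn Ft h0, mul_assoc]
  congr 1
  rw [← Finset.sum_filter, ← Finset.sum_fiberwise_of_maps_to
    (g := fun τ : E' n → Tri n => Finset.univ.image τ) (t := (bridge_Srt n).powerset)]
  · rw [Finset.mul_sum, Finset.sum_filter]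
    refine Finset.sum_congr rfl fun T hT => ?_
    rw [Finset.mem_powerset] at hT
    by_cases hc : T.card = (n - 1).choose 2
    · rw [if_pos hc]
      have hcE : T.card = Fintype.card (E' n) := by rw [hc, bridge_card]
      have e1 : (Finset.univ.filter (fun τ : E' n → Tri n => ∀ i, bridge_S (τ i))).filter
          (fun τ => Finset.univ.image τ = T) =
          Finset.univ.filter (fun τ : E' n → Tri n => Finset.univ.image τ = T) := by
        ext τ
        simp only [Finset.mem_filter, Finset.mem_univ, true_and]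
        constructor
        · exact fun h => h.2
        · intro h
          refine ⟨fun i => ?_, h⟩
          have h1 : τ i ∈ T := by rw [← h]; exact Finset.mem_image_of_mem _ (Finset.mem_univ i)
          have h2 := hT h1
          unfold bridge_Srt at h2
          rw [Finset.mem_filter] at h2
          exact h2.2
      rw [e1, ← bridge_enum T hcE, ← nsmul_eq_mul, ← Finset.sum_const]
      refine Finset.sum_congr rfl fun τ hτ => ?_
      rw [Finset.mem_filter] at hτ
      have hinj : Function.Injective τ := bridge_inj τ (by rw [hτ.2, hcE])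
      rw [bridge_gram τ hinj, hτ.2]
    · rw [if_neg hc]
      refine Finset.sum_eq_zero fun τ hτ => ?_
      rw [Finset.mem_filter] at hτ
      have hninj : ¬ Function.Injective τ := by
        intro hinj
        apply hc
        rw [← hτ.2, Finset.card_image_of_injective _ hinj, Finset.card_univ, bridge_card]
      rw [bridge_noninj τ hninj]
      simpa using h0
  · intro τ hτ
    rw [Finset.mem_filter] at hτ
    rw [Finset.mem_powerset]
    intro t ht
    rw [Finset.mem_image] at ht
    obtain ⟨i, _, rfl⟩ := ht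
    unfold bridge_Srt
    rw [Finset.mem_filter]
    exact ⟨Finset.mem_univ _, hτ.2 i⟩

/-- the boundary of a sorted triple on a non-root edge -/
lemma bridge_bd {n : ℕ} (t : Tri n) (ht : t.1 < t.2.1 ∧ t.2.1 < t.2.2) (e : E' n) :
    (if e.1 = (t.2.1, t.2.2) then (1 : ℤ) else 0) - (if e.1 = (t.1, t.2.2) then (1 : ℤ) else 0)
      + (if e.1 = (t.1, t.2.1) then (1 : ℤ) else 0) = bd t e.1 := by
  obtain ⟨⟨x, y⟩, he0, he⟩ := e
  obtain ⟨a, b, c⟩ := t
  simp only at ht he ⊢
  unfold bd chi
  simp only
  have h1 : ((x, y) : Fin n × Fin n) ≠ (b, a) := by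
    intro h
    rw [Prod.mk.injEq] at h
    rw [h.1, h.2] at he
    exact absurd he ht.1.not_gt
  have h2 : ((x, y) : Fin n × Fin n) ≠ (c, b) := by
    intro h
    rw [Prod.mk.injEq] at h
    rw [h.1, h.2] at he
    exact absurd he ht.2.not_gt
  have h3 : ((x, y) : Fin n × Fin n) ≠ (c, a) := by
    intro h
    rw [Prod.mk.injEq] at h
    rw [h.1, h.2] at he
    exact absurd he (ht.1.trans ht.2).not_gt
  rw [if_neg h1, if_neg h2, if_neg h3]
  ring

/-- block BRIDGE: the tuple form implies the frozen statement S19527 -/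
theorem bridge_S19527
    (h : ∀ p : ℕ, p.Prime → ∀ ε : ℝ, 0 < ε → ∃ K N : ℕ, ∀ n : ℕ, N ≤ n →
      mass (fun τ : E' n → Tri n => K < p ^ padicValInt p (M τ).det) < ε * Z n) :
    ∀ p : ℕ, p.Prime → ∀ ε : ℝ, 0 < ε → ∃ K : ℕ, ∃ N : ℕ, ∀ n : ℕ, N ≤ n →
      (∑ T ∈ (((((Finset.univ : Finset (Fin n × Fin n × Fin n)).filter
                (fun t => t.1 < t.2.1 ∧ t.2.1 < t.2.2)).powerset).filter
                (fun T => T.card = (n - 1).choose 2)).filter
              (fun T => K < p ^ (padicValInt p (Matrix.det (Matrix.of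
                (fun e f : {x : Fin n × Fin n // 0 < x.1.val ∧ x.1 < x.2} =>
                  ∑ t ∈ T,
                    ((if e.1 = (t.2.1, t.2.2) then (1 : ℤ) else 0)
                      - (if e.1 = (t.1, t.2.2) then (1 : ℤ) else 0)
                      + (if e.1 = (t.1, t.2.1) then (1 : ℤ) else 0)) *
                    ((if f.1 = (t.2.1, t.2.2) then (1 : ℤ) else 0)
                      - (if f.1 = (t.1, t.2.2) then (1 : ℤ) else 0)
                      + (if f.1 = (t.1, t.2.1) then (1 : ℤ) else 0))))) / 2))),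
          ((Matrix.det (Matrix.of
                (fun e f : {x : Fin n × Fin n // 0 < x.1.val ∧ x.1 < x.2} =>
                  ∑ t ∈ T,
                    ((if e.1 = (t.2.1, t.2.2) then (1 : ℤ) else 0)
                      - (if e.1 = (t.1, t.2.2) then (1 : ℤ) else 0)
                      + (if e.1 = (t.1, t.2.1) then (1 : ℤ) else 0)) *
                    ((if f.1 = (t.2.1, t.2.2) then (1 : ℤ) else 0)
                      - (if f.1 = (t.1, t.2.2) then (1 : ℤ) else 0)
                      + (if f.1 = (t.1, t.2.1) then (1 : ℤ) else 0))))) : ℝ))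
      < ε * (∑ T ∈ ((((Finset.univ : Finset (Fin n × Fin n × Fin n)).filter
                (fun t => t.1 < t.2.1 ∧ t.2.1 < t.2.2)).powerset).filter
                (fun T => T.card = (n - 1).choose 2)),
          ((Matrix.det (Matrix.of
                (fun e f : {x : Fin n × Fin n // 0 < x.1.val ∧ x.1 < x.2} =>
                  ∑ t ∈ T,
                    ((if e.1 = (t.2.1, t.2.2) then (1 : ℤ) else 0)
                      - (if e.1 = (t.1, t.2.2) then (1 : ℤ) else 0)
                      + (if e.1 = (t.1, t.2.1) then (1 : ℤ) else 0)) *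
                    ((if f.1 = (t.2.1, t.2.2) then (1 : ℤ) else 0)
                      - (if f.1 = (t.1, t.2.2) then (1 : ℤ) else 0)
                      + (if f.1 = (t.1, t.2.1) then (1 : ℤ) else 0))))) : ℝ)) := by
  intro p hp ε hε
  have : Fact p.Prime := ⟨hp⟩
  obtain ⟨K, N, hN⟩ := h p hp ε hε
  refine ⟨K, max N 1, fun n hn => ?_⟩
  have hn1 : 1 ≤ n := le_trans (le_max_right _ _) hn
  have hm := hN n (le_trans (le_max_left _ _) hn)
  -- the Gram matrix of the statement
  have hG : ∀ T ∈ (bridge_Srt n).powerset, (Matrix.of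
      (fun e f : {x : Fin n × Fin n // 0 < x.1.val ∧ x.1 < x.2} =>
                  ∑ t ∈ T,
                    ((if e.1 = (t.2.1, t.2.2) then (1 : ℤ) else 0)
                      - (if e.1 = (t.1, t.2.2) then (1 : ℤ) else 0)
                      + (if e.1 = (t.1, t.2.1) then (1 : ℤ) else 0)) *
                    ((if f.1 = (t.2.1, t.2.2) then (1 : ℤ) else 0)
                      - (if f.1 = (t.1, t.2.2) then (1 : ℤ) else 0)
                      + (if f.1 = (t.1, t.2.1) then (1 : ℤ) else 0)))) = bridge_G T := by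
    intro T hT
    rw [Finset.mem_powerset] at hT
    unfold bridge_G
    ext e f
    rw [Matrix.of_apply, Matrix.of_apply]
    refine Finset.sum_congr rfl fun t ht => ?_
    have h1 := hT ht
    unfold bridge_Srt at h1
    rw [Finset.mem_filter] at h1
    rw [bridge_bd t h1.2 e, bridge_bd t h1.2 f]
  have hGR : ∀ T ∈ (bridge_Srt n).powerset, ((Matrix.det (Matrix.of
      (fun e f : {x : Fin n × Fin n // 0 < x.1.val ∧ x.1 < x.2} =>
                  ∑ t ∈ T,
                    ((if e.1 = (t.2.1, t.2.2) then (1 : ℤ) else 0)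
                      - (if e.1 = (t.1, t.2.2) then (1 : ℤ) else 0)
                      + (if e.1 = (t.1, t.2.1) then (1 : ℤ) else 0)) *
                    ((if f.1 = (t.2.1, t.2.2) then (1 : ℤ) else 0)
                      - (if f.1 = (t.1, t.2.2) then (1 : ℤ) else 0)
                      + (if f.1 = (t.1, t.2.1) then (1 : ℤ) else 0))))) : ℝ) =
      ((bridge_G T).det : ℝ) := by
    intro T hT
    rw [← hG T hT, Int.cast_det]
    congr 1
    ext e f
    rw [Matrix.map_apply, Matrix.of_apply, Matrix.of_apply]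
    push_cast
    rfl
  set Ft : ℤ → ℝ := fun D => if K < p ^ (padicValInt p D / 2) then (D : ℝ) else 0 with hFt
  have hval : ∀ d : ℤ, padicValInt p (d ^ 2) / 2 = padicValInt p d := by
    intro d
    rcases eq_or_ne d 0 with hd | hd
    · subst hd
      simp
    · rw [sq, padicValInt.mul hd hd]
      omega
  have e1 : mass (fun τ : E' n → Tri n => K < p ^ padicValInt p (M τ).det) =
      ∑ τ : E' n → Tri n, Ft ((M τ).det ^ 2) := by
    unfold mass wt
    refine Finset.sum_congr rfl fun τ _ => ?_
    simp only [hFt, hval]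
    by_cases hK : K < p ^ padicValInt p (M τ).det
    · rw [if_pos hK, if_pos hK]
      push_cast
      rfl
    · rw [if_neg hK, if_neg hK]
  have e2 : Z n = ∑ τ : E' n → Tri n, (fun D : ℤ => (D : ℝ)) ((M τ).det ^ 2) := by
    unfold Z wt
    refine Finset.sum_congr rfl fun τ _ => ?_
    push_cast
    rfl
  rw [e1, e2, bridge_sum hn1 Ft (by simp [hFt]), bridge_sum hn1 (fun D : ℤ => (D : ℝ)) (by simp),
    mul_left_comm] at hm
  have hpos : (0 : ℝ) < 6 ^ Fintype.card (E' n) * (Fintype.card (E' n)).factorial := by
    positivity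
  have hm2 := lt_of_mul_lt_mul_left hm hpos.le
  have hS : (Finset.univ : Finset (Fin n × Fin n × Fin n)).filter
      (fun t => t.1 < t.2.1 ∧ t.2.1 < t.2.2) = bridge_Srt n := rfl
  rw [hS]
  refine lt_of_le_of_lt (le_of_eq ?_) (lt_of_lt_of_le hm2 (le_of_eq ?_))
  · rw [Finset.sum_filter]
    refine Finset.sum_congr rfl fun T hT => ?_
    rw [hG T (Finset.mem_filter.mp hT).1, hGR T (Finset.mem_filter.mp hT).1]
  · congr 1
    refine Finset.sum_congr rfl fun T hT => ?_
    rw [hGR T (Finset.mem_filter.mp hT).1]

end Pool.Agent.HT
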