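import Pool.Agent.Lib_helper59.HT.Defs
import Pool.Agent.Lib_helper6.HT.EXROW

/-! Block CHAR. -/

set_option autoImplicit false

open Finset Matrix

namespace Pool.Agent.HT

/-- evaluation at a triple -/
def char_ev {n q : ℕ} (V : AddSubgroup (E' n → ZMod q)) (t : Tri n) : V →+ ZMod q where
  toFun f := cob (tl f.1) t
  map_zero' := by simp [cob, tl]
  map_add' f g := cob_tl_add f.1 g.1 t

open Classical in
lemma char_orth {n q : ℕ} [NeZero q] (V : AddSubgroup (E' n → ZMod q)) [Fintype V] (t : Tri n) :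
    ∑ f : V, (ZMod.stdAddChar (cob (tl f.1) t) : ℂ) = if ZZ V t then (Nat.card V : ℂ) else 0 := by
  set ψ : AddChar V ℂ := (ZMod.stdAddChar (N := q)).compAddMonoidHom (char_ev V t) with hψ
  have h1 : ∑ f : V, ψ f = if ψ = 0 then (Fintype.card V : ℂ) else 0 := AddChar.sum_eq_ite ψ
  have h2 : ∑ f : V, (ZMod.stdAddChar (cob (tl f.1) t) : ℂ) = ∑ f : V, ψ f := rfl
  rw [h2, h1, Nat.card_eq_fintype_card]
  have h3 : ψ = 0 ↔ ZZ V t := by
    constructor
    · intro h f hf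
      have h4 : ψ ⟨f, hf⟩ = 1 := by rw [h]; rfl
      have h5 : (ZMod.stdAddChar (cob (tl f) t) : ℂ) = ZMod.stdAddChar (0 : ZMod q) := by
        rw [AddChar.map_zero_eq_one]
        exact h4
      exact ZMod.injective_stdAddChar h5
    · intro h
      ext f
      have h4 : cob (tl f.1) t = 0 := h f.1 f.2
      change (ZMod.stdAddChar (cob (tl f.1) t) : ℂ) = 1
      rw [h4, AddChar.map_zero_eq_one]
  simp only [h3]

/-- the character sum over the third vertex -/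
noncomputable def char_T {n q : ℕ} [NeZero q] (f : E' n → ZMod q) (a b : Fin n) : ℝ :=
  ‖∑ c : Fin n, (ZMod.stdAddChar (tl f a c + tl f c b) : ℂ)‖

lemma char_norm_one {q : ℕ} [NeZero q] (x : ZMod q) : ‖(ZMod.stdAddChar x : ℂ)‖ = 1 := by
  rw [ZMod.stdAddChar_apply]
  exact Circle.norm_coe _

lemma char_T_le {n q : ℕ} [NeZero q] (f : E' n → ZMod q) (a b : Fin n) :
    char_T f a b ≤ n := by
  unfold char_T
  refine (norm_sum_le _ _).trans ?_
  rw [Finset.sum_congr rfl fun c _ => char_norm_one _]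
  simp

lemma char_T_eq {n q : ℕ} [NeZero q] (f : E' n → ZMod q) (a b : Fin n) :
    ‖∑ c : Fin n, (ZMod.stdAddChar (cob (tl f) (a, b, c)) : ℂ)‖ = char_T f b a := by
  have h1 : ∀ c : Fin n, (ZMod.stdAddChar (cob (tl f) (a, b, c)) : ℂ) =
      ZMod.stdAddChar (tl f a b) * ZMod.stdAddChar (tl f b c + tl f c a) := by
    intro c
    rw [← AddChar.map_add_eq_mul]
    congr 1
    unfold cob
    simp only
    abel
  simp only [h1]
  rw [← Finset.mul_sum, norm_mul, char_norm_one, one_mul]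
  rfl

/-- block CHAR (with the additional hypothesis `0 ≤ ε1`) -/
theorem bad_pairs_pr (n q m κ : ℕ) (hn : 1 ≤ n) [NeZero q] (ε1 ε2 : ℝ) (h1 : 0 ≤ ε1)
    (h2 : 0 < ε2)
    (V : AddSubgroup (E' n → ZMod q)) (hV : Nat.card V = m)
    (hs : Nat.card {f : E' n → ZMod q // f ∈ V ∧ ¬ QR q ε1 f} ≤ κ) :
    ((BB V ((κ : ℝ) / m + ε2)).card : ℝ) ≤ (m * ε1 / ε2 ^ 2) * (n : ℝ) ^ 2 := by
  classical
  have : Fintype V := Fintype.ofFinite V
  have hn0 : (0 : ℝ) < n := by exact_mod_cast hn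
  have hm1 : 1 ≤ m := by
    rw [← hV]
    exact Nat.card_pos
  have hm0 : (0 : ℝ) < m := by exact_mod_cast hm1
  have hm1' : (1 : ℝ) ≤ m := by exact_mod_cast hm1
  -- good elements
  set Gd : Finset V := Finset.univ.filter (fun f : V => QR q ε1 f.1) with hGd
  have hGcard : (Gd.card : ℝ) ≤ m := by
    have : Gd.card ≤ Fintype.card V := Finset.card_le_univ _
    rw [← Nat.card_eq_fintype_card, hV] at this
    exact_mod_cast this
  have hBad : ((Finset.univ.filter (fun f : V => ¬ QR q ε1 f.1)).card : ℝ) ≤ κ := by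
    have h3 : (Finset.univ.filter (fun f : V => ¬ QR q ε1 f.1)).card =
        Nat.card {f : E' n → ZMod q // f ∈ V ∧ ¬ QR q ε1 f} := by
      rw [← Fintype.card_subtype, ← Nat.card_eq_fintype_card]
      exact Nat.card_congr
        ⟨fun f => ⟨f.1.1, f.1.2, f.2⟩, fun f => ⟨⟨f.1, f.2.1⟩, f.2.2⟩, fun _ => rfl, fun _ => rfl⟩
    rw [h3]
    exact_mod_cast hs
  -- pointwise
  have hpt : ∀ a b : Fin n, (m : ℝ) * cnt (fun c : Fin n => ZZ V (a, b, c)) ≤
      κ * n + ∑ f ∈ Gd, char_T f.1 b a := by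
    intro a b
    have h3 : (((m : ℝ) * cnt (fun c : Fin n => ZZ V (a, b, c)) : ℝ) : ℂ) =
        ∑ f : V, ∑ c : Fin n, (ZMod.stdAddChar (cob (tl f.1) (a, b, c)) : ℂ) := by
      rw [Finset.sum_comm]
      simp only [char_orth]
      rw [← Finset.sum_filter, Finset.sum_const, hV, nsmul_eq_mul]
      unfold cnt
      push_cast
      ring
    have h4 : (m : ℝ) * cnt (fun c : Fin n => ZZ V (a, b, c)) =
        ‖∑ f : V, ∑ c : Fin n, (ZMod.stdAddChar (cob (tl f.1) (a, b, c)) : ℂ)‖ := by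
      rw [← h3, Complex.norm_real, Real.norm_eq_abs, abs_of_nonneg (by positivity)]
    rw [h4]
    refine (norm_sum_le _ _).trans ?_
    simp only [char_T_eq]
    rw [← Finset.sum_filter_add_sum_filter_not Finset.univ (fun f : V => QR q ε1 f.1), add_comm]
    refine add_le_add ?_ le_rfl
    calc ∑ f ∈ Finset.univ.filter (fun f : V => ¬ QR q ε1 f.1), char_T f.1 b a
        ≤ ∑ f ∈ Finset.univ.filter (fun f : V => ¬ QR q ε1 f.1), (n : ℝ) :=
          Finset.sum_le_sum fun f _ => char_T_le _ _ _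
      _ = ((Finset.univ.filter (fun f : V => ¬ QR q ε1 f.1)).card : ℝ) * n := by
          rw [Finset.sum_const, nsmul_eq_mul]
      _ ≤ κ * n := mul_le_mul_of_nonneg_right hBad hn0.le
  -- second moments
  have hsq : ∀ ab ∈ BB V ((κ : ℝ) / m + ε2), (m : ℝ) * ε2 ^ 2 * n ^ 2 ≤
      ∑ f ∈ Gd, char_T f.1 ab.2 ab.1 ^ 2 := by
    rintro ⟨a, b⟩ hab
    unfold BB at hab
    simp only [Finset.mem_filter, Finset.mem_univ, true_and] at hab
    have h3 := hpt a b
    have h4 : m * ε2 * n ≤ ∑ f ∈ Gd, char_T f.1 b a := by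
      have h5 : (m : ℝ) * (((κ : ℝ) / m + ε2) * n) ≤
          (m : ℝ) * cnt (fun c : Fin n => ZZ V (a, b, c)) :=
        mul_le_mul_of_nonneg_left hab.le hm0.le
      have h6 : (m : ℝ) * (((κ : ℝ) / m + ε2) * n) = κ * n + m * ε2 * n := by
        field_simp
      linarith
    have h7 : (∑ f ∈ Gd, char_T f.1 b a) ^ 2 ≤ Gd.card * ∑ f ∈ Gd, char_T f.1 b a ^ 2 :=
      sq_sum_le_card_mul_sum_sq
    have h8 : (m * ε2 * n : ℝ) ^ 2 ≤ (∑ f ∈ Gd, char_T f.1 b a) ^ 2 :=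
      pow_le_pow_left₀ (by positivity) h4 2
    have h9 : 0 ≤ ∑ f ∈ Gd, char_T f.1 b a ^ 2 := Finset.sum_nonneg fun f _ => sq_nonneg _
    have h10 : (m * ε2 * n : ℝ) ^ 2 ≤ m * ∑ f ∈ Gd, char_T f.1 b a ^ 2 :=
      h8.trans (h7.trans (mul_le_mul_of_nonneg_right hGcard h9))
    simp only
    have h11 : (m : ℝ) * (m * ε2 ^ 2 * n ^ 2) ≤ m * ∑ f ∈ Gd, char_T f.1 b a ^ 2 := by
      calc (m : ℝ) * (m * ε2 ^ 2 * n ^ 2) = (m * ε2 * n) ^ 2 := by ring
        _ ≤ _ := h10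
    exact le_of_mul_le_mul_left h11 hm0
  have hsum : ((BB V ((κ : ℝ) / m + ε2)).card : ℝ) * (m * ε2 ^ 2 * n ^ 2) ≤ m * (ε1 * n ^ 4) := by
    calc ((BB V ((κ : ℝ) / m + ε2)).card : ℝ) * (m * ε2 ^ 2 * n ^ 2)
        = ∑ ab ∈ BB V ((κ : ℝ) / m + ε2), (m : ℝ) * ε2 ^ 2 * n ^ 2 := by
          rw [Finset.sum_const, nsmul_eq_mul]
      _ ≤ ∑ ab ∈ BB V ((κ : ℝ) / m + ε2), ∑ f ∈ Gd, char_T f.1 ab.2 ab.1 ^ 2 :=
          Finset.sum_le_sum hsq
      _ ≤ ∑ ab : Fin n × Fin n, ∑ f ∈ Gd, char_T f.1 ab.2 ab.1 ^ 2 :=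
          Finset.sum_le_sum_of_subset_of_nonneg (Finset.subset_univ _)
            fun ab _ _ => Finset.sum_nonneg fun f _ => sq_nonneg _
      _ = ∑ f ∈ Gd, ∑ a : Fin n, ∑ b : Fin n, char_T f.1 a b ^ 2 := by
          rw [Finset.sum_comm]
          refine Finset.sum_congr rfl fun f _ => ?_
          rw [Fintype.sum_prod_type, Finset.sum_comm]
      _ ≤ ∑ f ∈ Gd, ε1 * (n : ℝ) ^ 4 := by
          refine Finset.sum_le_sum fun f hf => ?_
          exact (Finset.mem_filter.mp hf).2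
      _ = Gd.card * (ε1 * (n : ℝ) ^ 4) := by rw [Finset.sum_const, nsmul_eq_mul]
      _ ≤ m * (ε1 * n ^ 4) := mul_le_mul_of_nonneg_right hGcard (by positivity)
  have h3 : ((BB V ((κ : ℝ) / m + ε2)).card : ℝ) ≤ (ε1 / ε2 ^ 2) * (n : ℝ) ^ 2 := by
    have h4 : (0 : ℝ) < m * ε2 ^ 2 * n ^ 2 := by positivity
    have h5 : ((BB V ((κ : ℝ) / m + ε2)).card : ℝ) * (m * ε2 ^ 2 * n ^ 2) ≤
        ((ε1 / ε2 ^ 2) * (n : ℝ) ^ 2) * (m * ε2 ^ 2 * n ^ 2) := by
      refine hsum.trans (le_of_eq ?_)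
      field_simp
    exact le_of_mul_le_mul_right h5 h4
  refine h3.trans ?_
  refine mul_le_mul_of_nonneg_right ?_ (by positivity)
  rw [div_le_div_iff_of_pos_right (by positivity)]
  nlinarith

end Pool.Agent.HT
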